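import Pool.Agent.Helper84.SPN.St

/-! # Project SPN (MP_a2f62e_al), module RRR -/

set_option autoImplicit false

namespace Pool.Agent.Helper62.SPN

open Pool.Agent.Helper84.SPN Pool.Agent.Helper75.MX

section
variable {n : ℕ} {F : Type} [Field F]

theorem om_add_left (v w x : VV n F) : om (v + w) x = om v x + om w x := by
  simp only [om, Prod.fst_add, Prod.snd_add, Pi.add_apply]
  rw [← Finset.sum_add_distrib]
  exact Finset.sum_congr rfl fun i _ => by ring

theorem om_smul_left (a : F) (v x : VV n F) : om (a • v) x = a * om v x := by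
  simp only [om, Prod.smul_fst, Prod.smul_snd, Pi.smul_apply, smul_eq_mul]
  rw [Finset.mul_sum]
  exact Finset.sum_congr rfl fun i _ => by ring

theorem om_add_right (v w x : VV n F) : om v (w + x) = om v w + om v x := by
  simp only [om, Prod.fst_add, Prod.snd_add, Pi.add_apply]
  rw [← Finset.sum_add_distrib]
  exact Finset.sum_congr rfl fun i _ => by ring

theorem om_smul_right (a : F) (v x : VV n F) : om v (a • x) = a * om v x := by
  simp only [om, Prod.smul_fst, Prod.smul_snd, Pi.smul_apply, smul_eq_mul]
  rw [Finset.mul_sum]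
  exact Finset.sum_congr rfl fun i _ => by ring

theorem om_self (v : VV n F) : om v v = 0 := by
  simp only [om]
  exact Finset.sum_eq_zero fun i _ => by ring

theorem om_swap (v w : VV n F) : om v w = -om w v := by
  simp only [om]
  rw [← Finset.sum_neg_distrib]
  exact Finset.sum_congr rfl fun i _ => by ring

end

section
variable {m : ℕ} {F : Type} [Field F]

/-- the linear map -/
def rl (u : VV (m + 1) F) (c : F) : VV (m + 1) F →ₗ[F] VV (m + 1) F where
  toFun v := v + om (e0 m F) v • (u + c • e0 m F) + om u v • e0 m F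
  map_add' v w := by
    rw [om_add_right, om_add_right]
    module
  map_smul' a v := by
    rw [om_smul_right, om_smul_right, RingHom.id_apply]
    module

theorem rl_apply (u : VV (m + 1) F) (c : F) (v : VV (m + 1) F) :
    rl u c v = v + om (e0 m F) v • (u + c • e0 m F) + om u v • e0 m F := rfl

theorem rl_mul (u u' : VV (m + 1) F) (c c' : F) (hu : om (e0 m F) u = 0)
    (hu' : om (e0 m F) u' = 0) (v : VV (m + 1) F) :
    rl u c (rl u' c' v) = rl (u + u') (c + c' + om u u') v := by
  have h0 : om u (e0 m F) = 0 := by rw [om_swap, hu, neg_zero]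
  have h1 : om (e0 m F) (rl u' c' v) = om (e0 m F) v := by
    rw [rl_apply]
    simp only [om_add_right, om_smul_right, hu', om_self]
    ring
  have h2 : om u (rl u' c' v) = om u v + om (e0 m F) v * om u u' := by
    rw [rl_apply]
    simp only [om_add_right, om_smul_right, h0]
    ring
  rw [rl_apply u c, h1, h2, rl_apply u' c', rl_apply (u + u'), om_add_left]
  module

theorem rl_zero (v : VV (m + 1) F) : rl (m := m) (F := F) 0 0 v = v := by
  rw [rl_apply]
  have h : om (0 : VV (m + 1) F) v = 0 := by
    have := om_smul_left (0 : F) v v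
    simpa using this
  rw [h]
  simp

theorem rl_form (u : VV (m + 1) F) (c : F) (hu : om (e0 m F) u = 0) (v w : VV (m + 1) F) :
    om (rl u c v) (rl u c w) = om v w := by
  have h0 : om u (e0 m F) = 0 := by rw [om_swap, hu, neg_zero]
  rw [rl_apply, rl_apply]
  simp only [om_add_right, om_smul_right, om_add_left, om_smul_left, hu, h0, om_self]
  rw [om_swap v (e0 m F), om_swap v u]
  ring

/-- the linear automorphism -/
def re (u : VV (m + 1) F) (c : F) (hu : om (e0 m F) u = 0) : VV (m + 1) F ≃ₗ[F] VV (m + 1) F :=
  LinearEquiv.ofLinearMap (rl u c) (rl (-u) (-c))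
    (by
      refine LinearMap.ext fun v => ?_
      have h : om (e0 m F) (-u) = 0 := by
        rw [← neg_one_smul F u, om_smul_right, hu, mul_zero]
      rw [LinearMap.comp_apply, LinearMap.id_apply, rl_mul _ _ _ _ hu h]
      have h2 : om u (-u) = 0 := by rw [← neg_one_smul F u, om_smul_right, om_self, mul_zero]
      rw [h2, add_neg_cancel, add_neg_cancel, add_zero]
      exact rl_zero v)
    (by
      refine LinearMap.ext fun v => ?_
      have h : om (e0 m F) (-u) = 0 := by
        rw [← neg_one_smul F u, om_smul_right, hu, mul_zero]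
      rw [LinearMap.comp_apply, LinearMap.id_apply, rl_mul _ _ _ _ h hu]
      have h2 : om (-u) u = 0 := by rw [← neg_one_smul F u, om_smul_left, om_self, mul_zero]
      rw [h2, neg_add_cancel, neg_add_cancel, add_zero]
      exact rl_zero v)

theorem re_apply (u : VV (m + 1) F) (c : F) (hu : om (e0 m F) u = 0) (v : VV (m + 1) F) :
    re u c hu v = rl u c v := rfl

open Classical in
/-- the element of the symplectic group -/
noncomputable def rr (u : VV (m + 1) F) (c : F) : SpG (m + 1) F :=
  if hu : om (e0 m F) u = 0 then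
    ⟨re u c hu, fun v w => by rw [re_apply, re_apply]; exact rl_form u c hu v w⟩ else 1

theorem rr_apply (u : VV (m + 1) F) (c : F) (hu : om (e0 m F) u = 0) (v : VV (m + 1) F) :
    (rr u c).1 v = rl u c v := by
  rw [rr, dif_pos hu]
  rfl

end

theorem hRRR : StRRR := by
  intro m F _
  refine ⟨rr, fun u c hu _ => ⟨?_, ?_, ?_⟩⟩
  · have h0 : om u (e0 m F) = 0 := by rw [om_swap, hu, neg_zero]
    refine ⟨?_, 1, Or.inl rfl, fun y hy => ⟨om u y, ?_⟩⟩
    · rw [rr_apply u c hu, rl_apply, om_self, h0]
      simp
    · rw [rr_apply u c hu, rl_apply, hy]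
      simp
  · intro v
    rw [rr_apply u c hu, rl_apply]
  · intro u' c' hu' _
    have h : om (e0 m F) (u + u') = 0 := by rw [om_add_right, hu, hu', add_zero]
    apply Subtype.ext
    apply LinearEquiv.ext
    intro v
    rw [rr_apply (u + u') _ h, ← rl_mul u u' c c' hu hu', ← rr_apply u c hu,
      ← rr_apply u' c' hu']
    rfl

end Pool.Agent.Helper62.SPN
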